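import Pool.Agent.Helper58.PB.StS

/-! # Module CPS (project PB): number of characters, Chebyshev -/

set_option autoImplicit false

namespace Pool.Agent.Helper72.PB

open Finset ArithmeticFunction
open Pool.Agent.Helper48.BK (ex th Sx Apx rr win AdN Admissible Solv Cl thd nd)
open Pool.Agent.Helper23.MV (PCh PS ZF ZS mwt OKb ta Sc mm)
open Pool.Agent.Helper58.PB

private theorem card_r_CPS (s : Finset PCh) (r : ℕ) (hr : 1 ≤ r) :
    (s.filter (fun c => c.r = r)).card ≤ r.totient := by
  classical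
  have : NeZero r := ⟨by omega⟩
  have hfin : Finite (DirichletCharacter ℂ r) := inferInstance
  have := Fintype.ofFinite (DirichletCharacter ℂ r)
  have h1 : Nat.card (DirichletCharacter ℂ r) = r.totient :=
    DirichletCharacter.card_eq_totient_of_hasEnoughRootsOfUnity ℂ r
  rw [← h1, Nat.card_eq_fintype_card, ← Finset.card_univ]
  refine Finset.card_le_card_of_injOn
    (fun c : PCh => if h : c.r = r then h ▸ c.χ else (1 : DirichletCharacter ℂ r)) ?_ ?_
  · intro c _; exact Finset.mem_coe.2 (Finset.mem_univ _)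
  · rintro ⟨r1, hr1, χ1, p1⟩ h1 ⟨r2, hr2, χ2, p2⟩ h2 h
    have e1 : r1 = r := (Finset.mem_filter.1 (Finset.mem_coe.1 h1)).2
    have e2 : r2 = r := (Finset.mem_filter.1 (Finset.mem_coe.1 h2)).2
    subst e1
    subst e2
    simp only [dite_true] at h
    subst h
    rfl

theorem hCps : Pool.Agent.Helper23.MV.StFin → StCps := by
  intro hF
  classical
  have hmem := hF.1
  refine ⟨?_, ?_, ?_⟩
  · intro P hP
    have h1 : ∀ c ∈ PS P, c.r ∈ Finset.Icc 1 ⌊P⌋₊ := by
      intro c hc
      rw [Finset.mem_Icc]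
      refine ⟨Nat.one_le_iff_ne_zero.2 c.hr, Nat.le_floor ((hmem P c).1 hc)⟩
    have h2 := Finset.card_eq_sum_card_fiberwise h1
    have h3 : (PS P).card ≤ ⌊P⌋₊ * ⌊P⌋₊ := by
      rw [h2]
      calc ∑ r ∈ Finset.Icc 1 ⌊P⌋₊, ((PS P).filter (fun c => c.r = r)).card
          ≤ ∑ r ∈ Finset.Icc 1 ⌊P⌋₊, ⌊P⌋₊ := by
            refine Finset.sum_le_sum fun r hr => ?_
            rw [Finset.mem_Icc] at hr
            exact (card_r_CPS _ r hr.1).trans ((Nat.totient_le r).trans hr.2)
        _ = ⌊P⌋₊ * ⌊P⌋₊ := by simp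
    have h4 : (⌊P⌋₊ : ℝ) ≤ P := Nat.floor_le (by linarith)
    calc ((PS P).card : ℝ) ≤ ((⌊P⌋₊ * ⌊P⌋₊ : ℕ) : ℝ) := by exact_mod_cast h3
      _ = (⌊P⌋₊ : ℝ) * ⌊P⌋₊ := by push_cast; ring
      _ ≤ P * P := mul_le_mul h4 h4 (by positivity) (by linarith)
      _ = P ^ 2 := by ring
  · intro P q hq
    have h1 : ∀ c ∈ (PS P).filter (fun c => c.r ∣ q), c.r ∈ q.divisors := by
      intro c hc
      rw [Nat.mem_divisors]
      exact ⟨(Finset.mem_filter.1 hc).2, by omega⟩
    have h2 := Finset.card_eq_sum_card_fiberwise h1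
    have h3 : ((PS P).filter (fun c => c.r ∣ q)).card ≤ q := by
      rw [h2]
      calc ∑ r ∈ q.divisors, (((PS P).filter (fun c => c.r ∣ q)).filter (fun c => c.r = r)).card
          ≤ ∑ r ∈ q.divisors, r.totient := by
            refine Finset.sum_le_sum fun r hr => ?_
            exact card_r_CPS _ r (Nat.pos_of_mem_divisors hr)
        _ = q := Nat.sum_totient q
    exact_mod_cast h3
  · intro y
    have h1 : ∑ n ∈ Ioc 0 y, th n = Chebyshev.theta (y : ℝ) := by
      unfold Chebyshev.theta th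
      rw [Nat.floor_natCast, Finset.sum_filter]
    rw [h1]
    have h2 := Chebyshev.theta_le_log4_mul_x (x := (y : ℝ)) (by positivity)
    have h3 : Real.log 4 ≤ 4 := by
      have := Real.log_le_sub_one_of_pos (x := 4) (by norm_num)
      linarith
    exact h2.trans (mul_le_mul_of_nonneg_right h3 (by positivity))

end Pool.Agent.Helper72.PB
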